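import Pool.Agent.R927.PB4
import Pool.Agent.R927.GG9

set_option autoImplicit false

open Finset Polynomial Pool.Agent.W432.PC Pool.Agent.TH571.PCV Pool.Agent.Y227.SS Pool.Agent.R927
open Pool.Agent.W77.IM (CoordRing)
open Pool.Agent.R340.SY (expo)

/-!
# Flat bundles on curves which contain a pull-back: an averaged inequality for the exponents

Let `C` be a curve over a finitely generated field of characteristic zero with a finite map
`x : C → ℙ¹`, and let `(E, ∇)` be a flat bundle on `C` (or on an open part of `C`) whose generic fibre
contains the pull-back of a Fuchsian system `d/dx - ∑ j, A j / (x - α j)` of any rank `r` with any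
number of singular points and arbitrary rational exponents. (If `x` is sufficiently ramified over the
singular points, `C` may be a proper curve of any genus.) We prove an inequality for the exponents of
the system which follows from the hypothesis (H) of the isomonodromic form of the `p`-curvature
conjecture for `(E, ∇)`.

Choose a finite singular point `α j1` and rational numbers `t j` for the other finite ones. Let `y i` be
the exponents at `α j1` increased by the sum of the `t j`, `j ≠ j1`, let `z k` be the exponents at
infinity (eigenvalues of `∑ j, A j`) and let `X` run through the `M = (n - 1) r` numbers `lam j l - t j`,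
`j ≠ j1`. The theorem says that (H) fails if

`∑ γ (y i - y k) + ∑ γ (z i - z k) - 2 ∑ γ (y i - z k) - (M ^ 2 + ∑ γ (X - X') - 2 M ∑ γ (X))`

is positive (or at least `-7 · 2 ^ (-4 ^ r n r)`, for irreducible systems), where `γ q` is the product of the numbers `-p` for the
primes `p` dividing the denominator of `q`, divided by the square of the denominator; and in the first
case the `p`-curvatures of `E` are nonzero for a positive proportion of the primes. If all the numbers
are in `(1 / N) ℤ`, `N` prime, this is a condition on multiplicities modulo `ℤ`.

Proof. If the `p`-curvature of `E` vanishes at `𝔪`, that of the system vanishes at `𝔪`, for almost all `𝔪`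
(`R927/PB2`). If the `p`-curvatures of the system vanish at a dense set of closed points with
`a p = - 1` modulo `N`, then for all the twists of the system by rank one systems with exponents in
`(1/2N) ℤ` the conjugate exponents are the weights of a semistable parabolic bundle with trivial
underlying bundle. A basis adapted to the flags at two of the points (Bruhat decomposition) and the
inequalities for the constant subbundles which it spans give inequalities for the ordered weights, for
all the cuts of the circle `ℝ / ℤ` at the points other than `α j1` and infinity. Applied to all the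
layers they give a quadratic inequality for the conjugate exponents, which is averaged over all
conjugates. For irreducible systems the difference of the two sides is bounded below by the residue of
one of `4 ^ r n r` linear forms in the exponents; the product of the algebraic integers `1 - ζ ^ L` over
the nonzero ones of these forms has a norm of absolute value at least one, which gives a lower bound for
the mean of the difference (`R927/GG1` - `GG9`).
-/

namespace Pool.Agent.Results.MP_0707f5_ag.PullbackAverages

universe u v w

/-- Let `R` be a domain of characteristic zero, of finite type over `ℤ`, let `F` be a field containing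
`R` (the function field of a curve) with an `R`-linear derivation `δ` and `δ x = 1`, let `V` be a vector
space over `F` with a connection `∇`, let `T ∈ R[x]` be nonzero and let `E ⊆ V` be a finitely generated
`R[x, 1/T]`-module which is stable under `∇` and generates `V` over the rational functions of `x`
(`IsModel`; a flat bundle on the part `T ≠ 0` of the curve, spread out over `Spec R`). Assume that `V`
contains the pull-back of the system `d/dx - ∑ j, A j / (x - α j)` of rank `r` (`HasPullback`), where
`α 0, …, α (n - 1)` are elements of `R` with invertible differences, and that this system has rational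
exponents `lam j l` (eigenvalues of `A j`) and `phi l` (eigenvalues of `∑ j, A j`).

First part: three singular points (`n = 2`). Let `E x l = expo lam phi x l` be `lam j l` for `x = some j`
and `-phi l` for infinity, `x = none`. Assume that the system is irreducible over every field which
contains `R`, that at some point there are three exponents which are distinct modulo `ℤ`, that all
the differences `E x l - E x l'` of two exponents at the same point and all the sums `∑ x, E x (κ x)` of
three exponents, one for each point, have denominators at least `2 ^ (4 ^ r (2 r)) · 2 r ^ 2`, except for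
the differences which are integers, and that `r ≤ 3` or `E x l - E x l'` is an integer for at least
`r ^ 2` triples `(x, l, l')`. Then for every common denominator `B` of the exponents there are a residue
class modulo `B`, prime to `B`, and a nonzero `g` such that the `p`-curvature of `E` is nonzero at all
the closed points of `Spec R[1/g]` whose residue characteristic is a large prime in this class
(`BadModelMod`), and (H) fails.

Second part: any `n`. Let `t j` be rational numbers, let `N` be a positive integer such that all
`N (lam j l - t j)` and `N (phi l - ∑ j, t j)` are integers and let `ε = expr gam j1 lam phi t`.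

* There is a set `S` of at least `φ(N) ε / (3 r ^ 2)` classes modulo `N` such that the `p`-curvature of
`E` is nonzero at almost all the closed points of `Spec R` whose residue characteristic `p` is a
large prime in one of these classes. In particular, if `ε > 0`, (H) fails.

* If `2 ^ (4 ^ r (n r)) ε ≥ -7`, the system is irreducible over every field which contains `R`, and among
the numbers `lam j l - t j`, `j ≠ j1`, there are two which are not integers and not congruent to each
other modulo `ℤ`, then `BadModelMod` holds for every common denominator `B` of the exponents and (H)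
fails.

* If `N` is a prime number, then `ε = (1 + 1 / N) expr int1 j1 lam phi t`, where `int1` is the
characteristic function of the integers. If all the prime factors of `N` are at least `D`, then
`ε ≥ expr int1 j1 lam phi t - (4 r ^ 2 + 3 m ^ 2) / D`, with the number `m` of the `lam j l - t j`,
`j ≠ j1`, which are not integers. -/
theorem result {R : Type u} [CommRing R] [IsDomain R] [CharZero R] [Algebra.FiniteType ℤ R]
    {F : Type v} [Field F] [Algebra R F] (hRF : Function.Injective (algebraMap R F))
    (δ : Derivation R F F) (x : F) (hx : δ x = 1) {V : Type w} [AddCommGroup V] [Module F V]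
    (nabla : V →+ V) (T : R[X]) (hT : T ≠ 0) (E : Submodule (CoordRing x T R) V)
    (hE : IsModel x T nabla E) :
    (∀ (r : ℕ), 0 < r → ∀ (α : Fin 2 → R), (∀ i j, i ≠ j → IsUnit (α i - α j)) →
      ∀ (A : Fin 2 → Matrix (Fin r) (Fin r) R) (v : Fin r → V), HasPullback α A δ x nabla v →
      ∀ (lam : Fin 2 → Fin r → ℚ) (phi : Fin r → ℚ),
      (∀ j, HasExponents (A j) (lam j)) → HasExponents (∑ j, A j) phi → AbsIrreducible α A →
      (∃ x l l' l'', (expo lam phi x l - expo lam phi x l').den ≠ 1 ∧
        (expo lam phi x l - expo lam phi x l'').den ≠ 1 ∧
        (expo lam phi x l' - expo lam phi x l'').den ≠ 1) →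
      (∀ x l l', (expo lam phi x l - expo lam phi x l').den = 1 ∨
        2 ^ (4 ^ r * (2 * r)) * (2 * r ^ 2) ≤ (expo lam phi x l - expo lam phi x l').den) →
      (∀ κ : Option (Fin 2) → Fin r,
        2 ^ (4 ^ r * (2 * r)) * (2 * r ^ 2) ≤ (∑ x, expo lam phi x (κ x)).den) →
      (r ≤ 3 ∨ r ^ 2 ≤ (univ.filter fun p : Option (Fin 2) × Fin r × Fin r =>
        (expo lam phi p.1 p.2.1 - expo lam phi p.1 p.2.2).den = 1).card) →
      (∀ B, ExpDen lam phi B → BadModelMod nabla E B) ∧ ¬ HypH nabla E) ∧
    (∀ (n r : ℕ) (α : Fin n → R), (∀ i j, i ≠ j → IsUnit (α i - α j)) →
      ∀ (A : Fin n → Matrix (Fin r) (Fin r) R) (v : Fin r → V), HasPullback α A δ x nabla v →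
      ∀ (lam : Fin n → Fin r → ℚ) (phi : Fin r → ℚ), (∀ j, HasExponents (A j) (lam j)) →
      HasExponents (∑ j, A j) phi → ∀ (j1 : Fin n) (t : Fin n → ℚ) (N : ℕ), 0 < N →
      (∀ j l, ∃ m : ℤ, (N : ℚ) * (lam j l - t j) = m) →
      (∀ l, ∃ m : ℤ, (N : ℚ) * (phi l - ∑ j, t j) = m) →
      (∃ S : Finset (ZMod N)ˣ, (N.totient : ℚ) * expr gam j1 lam phi t ≤
        3 * (r : ℚ) ^ 2 * S.card ∧ BadModelFor nabla E N S) ∧
      (0 < expr gam j1 lam phi t → ¬ HypH nabla E) ∧
      (-7 ≤ (2 : ℚ) ^ (4 ^ r * (n * r)) * expr gam j1 lam phi t → AbsIrreducible α A →
        (∃ j l j' l', j ≠ j1 ∧ j' ≠ j1 ∧ (lam j l - t j).den ≠ 1 ∧ (lam j' l' - t j').den ≠ 1 ∧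
          ((lam j l - t j) - (lam j' l' - t j')).den ≠ 1) →
        (∀ B, ExpDen lam phi B → BadModelMod nabla E B) ∧ ¬ HypH nabla E) ∧
      (N.Prime → expr gam j1 lam phi t = (1 + 1 / (N : ℚ)) * expr int1 j1 lam phi t) ∧
      (∀ D : ℕ, 0 < D → (∀ p : ℕ, p.Prime → p ∣ N → D ≤ p) →
        expr int1 j1 lam phi t - (4 * (r : ℚ) ^ 2 + 3 * nontriv j1 lam t ^ 2) / D ≤
          expr gam j1 lam phi t)) := by
  refine ⟨?_, ?_⟩
  · intro r hr α hα A v hpb lam phi hlam hphi hirr h3 hd hs hrig
    have h := three_large hr α hα A lam phi hlam hphi hirr h3 hd hs
      (hrig.elim (fun h => card_pairs (expo lam phi) h) id)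
    exact ⟨fun B hB => hpb.badModelMod hRF hx hT hE (h B hB),
      fun hH => not_condII_of_badMod h (hpb.condII hRF hx hT hE hH)⟩
  · intro n r α hα A v hpb lam phi hlam hphi j1 t N hN hNlam hNphi
    obtain ⟨S, hS, hP⟩ := gen_final α hα A lam phi hlam hphi j1 t N hN hNlam hNphi
    have hP' : NonzeroFor α A N S := hP
    refine ⟨⟨S, hS, hpb.badModelFor hRF hx hT hE hP'⟩, fun hE' hH => ?_, fun hE' hirr h2 => ?_,
      fun hNp => ?_, fun D hD hr => ?_⟩
    · refine NonzeroFor.not_condII hN (S := S) hP' ?_ (hpb.condII hRF hx hT hE hH)
      rw [Finset.nonempty_iff_ne_empty]
      rintro rfl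
      rw [Finset.card_empty, Nat.cast_zero, mul_zero] at hS
      have h3 : (0 : ℚ) < N.totient := by exact_mod_cast Nat.totient_pos.2 hN
      have h4 := mul_pos h3 hE'
      linarith
    · have h := sys_expr α hα A lam phi hlam hphi hirr j1 t h2 hE'
      exact ⟨fun B hB => hpb.badModelMod hRF hx hT hE (h B hB),
        fun hH => not_condII_of_badMod h (hpb.condII hRF hx hT hE hH)⟩
    · exact expr_prime hNp j1 lam phi t hNlam hNphi
    · exact expr_rough hN hD hr j1 lam phi t hNlam hNphi

end Pool.Agent.Results.MP_0707f5_ag.PullbackAverages
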