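import Pool.Agent.R927.PB3
import Pool.Agent.R927.TwistFin

set_option autoImplicit false

open Finset Polynomial Pool.Agent.W432.PC Pool.Agent.Y227.SS Pool.Agent.Y227.RT Pool.Agent.R927
open Pool.Agent.W77.IM (CoordRing)

/-!
# Flat bundles on curves which contain the pull-back of a system of rank two with four singular points

Let `C` be a curve over a finitely generated field of characteristic zero with a finite map
`x : C → ℙ¹`, and let `(E, ∇)` be a flat bundle on `C` (or on an open part of `C`) whose generic fibre
contains the pull-back of an irreducible Fuchsian system of rank two with four singular points, whose
exponents have, up to a twist by a rational system of rank one, a prime number `N` as common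
denominator. (If `x` is ramified to orders divisible by `N` over the singular points, the pull-back of
the twisted system has no singularities, so `C` may be a proper curve of genus at least two.) It is not
assumed that `E` or the pull-back is irreducible.

We show that the `p`-curvatures of `E` are nonzero for all large primes in some residue class, so that
the hypothesis (H) of the isomonodromic form of the `p`-curvature conjecture fails for `(E, ∇)`, unless
the four differences of exponents split into two pairs which agree modulo `ℤ` up to sign.

Proof. If the `p`-curvature of `E` vanishes at `𝔪`, that of the system vanishes at `𝔪`, for almost all `𝔪`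
(`R927/PB2`). If the `p`-curvatures of the system vanish for a dense set of closed points in all the
residue classes modulo `N`, all the conjugates of the exponents satisfy the strict Weyl inequalities.
Summation over the conjugates gives vanishing sums of the sawtooth function and so, by the nonvanishing
of `L(1, χ)` for odd characters, relations between the exponents modulo `N`.
-/

namespace Pool.Agent.Results.MP_0707f5_ag.PullbackFourPoints

universe u v w

/-- Let `R` be a domain of characteristic zero, of finite type over `ℤ`, let `F` be a field containing
`R` (the function field of a curve) with an `R`-linear derivation `δ` and `δ x = 1`, let `V` be a vector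
space over `F` with a connection `∇`, let `T ∈ R[x]` be nonzero and let `E ⊆ V` be a finitely generated
`R[x, 1/T]`-module which is stable under `∇` and generates `V` over the rational functions of `x`
(`IsModel`; a flat bundle on the part `T ≠ 0` of the curve, spread out over `Spec R`).

Assume that `V` contains the pull-back (`HasPullback`) of the system `d/dx - ∑ j, A j / (x - α j)` of rank
two with three finite singular points `α j ∈ R` with invertible differences, which is irreducible over
every field containing `R` and has rational exponents `lam j l` (eigenvalues of `A j`) and `phi l`
(eigenvalues of `∑ j, A j`). Let `N` be a prime number and let `t j` be rational numbers such that `N` is a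
common denominator of the `lam j l - t j` and `phi l - ∑ j, t j`.

If `theta lam phi`, the family of the four differences of exponents, is not split (`Splits` says that the
points are divided into two pairs such that for both pairs `± θ i ± θ k` is an integer for suitable
signs), then there are a residue class of primes and a nonzero `g` such that the `p`-curvature of `E` is
nonzero at all the closed points of `Spec R[1/g]` whose residue characteristic is a large prime in this
class (`BadModel`). In particular (H) fails. -/
theorem result {R : Type u} [CommRing R] [IsDomain R] [CharZero R] [Algebra.FiniteType ℤ R]
    {F : Type v} [Field F] [Algebra R F] (hRF : Function.Injective (algebraMap R F))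
    (δ : Derivation R F F) (x : F) (hx : δ x = 1) {V : Type w} [AddCommGroup V] [Module F V]
    (nabla : V →+ V) (T : R[X]) (hT : T ≠ 0) (E : Submodule (CoordRing x T R) V)
    (hE : IsModel x T nabla E) (α : Fin 3 → R) (hα : ∀ i j, i ≠ j → IsUnit (α i - α j))
    (A : Fin 3 → Matrix (Fin 2) (Fin 2) R) (v : Fin 2 → V) (hpb : HasPullback α A δ x nabla v)
    (lam : Fin 3 → Fin 2 → ℚ) (phi : Fin 2 → ℚ) (hlam : ∀ j, HasExponents (A j) (lam j))
    (hphi : HasExponents (∑ j, A j) phi) (N : ℕ) (hN : N.Prime) (t : Fin 3 → ℚ)
    (hNlam : ∀ j l, ∃ m : ℤ, (N : ℚ) * (lam j l - t j) = m)
    (hNphi : ∀ l, ∃ m : ℤ, (N : ℚ) * (phi l - ∑ j, t j) = m) (hirr : AbsIrreducible α A)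
    (hsplit : ¬ Splits (theta lam phi)) : BadModel nabla E ∧ ¬ HypH nabla E := by
  obtain ⟨a, g, ha, hg, P₀, hP⟩ := Pool.Agent.R927.four_twist α hα A lam phi hlam hphi N hN t hNlam
    hNphi hirr hsplit
  have h : BadSome α A := ⟨N, a, hN.pos, ha, g, hg, P₀, hP⟩
  exact ⟨hpb.badModel hRF hx hT hE h, fun hH => h.not_condII (hpb.condII hRF hx hT hE hH)⟩

end Pool.Agent.Results.MP_0707f5_ag.PullbackFourPoints
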