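import Pool.Agent.R927.PB4
import Pool.Agent.R927.FW5

set_option autoImplicit false

open Finset Polynomial Pool.Agent.W432.PC Pool.Agent.TH571.PCV Pool.Agent.Y227.SS Pool.Agent.R927
open Pool.Agent.W77.IM (CoordRing)

/-!
# Flat bundles on curves which contain the pull-back of a system with few exponents

Let `C` be a curve over a finitely generated field `K` of characteristic zero with a finite map
`x : C → ℙ¹`, and let `(E, ∇)` be a flat bundle on `C` (or on an open part of `C`) whose generic fibre
contains the pull-back of a Fuchsian system of rank `r` on `ℙ¹`. If the map `x` is sufficiently ramified
over the singular points, the pull-back of the system has no singularities, so `C` may be a proper curve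
of any genus at least two. The genus, the degree and the branch points of `x` are arbitrary, and it is
not assumed that the bundle or the pull-back is irreducible. We show that the hypothesis (H) of
the isomonodromic form of the `p`-curvature conjecture fails for `(E, ∇)`, the `p`-curvatures being
nonzero for all large primes in some residue class, if the system is irreducible, at most `r` of its
exponents away from one singular point `x₀` (with multiplicities, up to a twist by a rational system of
rank one) are not integers, and the exponents at `x₀` do not strictly majorize, with the sign reversed,
the exponents at the other points, for all conjugates: it is enough that one exponent at `x₀` is an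
integer, or that **all the exponents which are not integers have denominators at least `28 r ^ 3`**, or
that one exponent away from `x₀` is not an integer and has a denominator at least as large as all the
exponents at `x₀`. This includes the pull-backs of all the irreducible Okubo systems `(x - T) Y' = M Y`
of rank `r` with exponents of denominators at least `28 r ^ 3`; there is no bound for the rank, the
number of singular points and of accessory parameters. For the Okubo systems irreducibility can be
replaced by the assumption that the exponents at the finite points and at infinity do not agree modulo
`ℤ` up to their order.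

Proof. If the `p`-curvature of `E` vanishes at `𝔪`, that of the system vanishes at `𝔪`, for almost all `𝔪`
(`R927/PB2`): one compares the standard lattice of the system with `E` in coordinates over the rational
functions of `x`, where linear independence is preserved modulo almost all `𝔪`. For the system the
vanishing of the `p`-curvatures for all residue classes implies that the fractional parts of all the
conjugates of the exponents at `x₀` majorize those of the other exponents (`R927/OK1` - `OK9`, `FW`), and
the case of large denominators follows from a bound for the mean of the conjugates of sums of roots of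
unity (`R927/GP1`, `GP2`).
-/

namespace Pool.Agent.Results.MP_0707f5_ag.PullbackMajorization

universe u v w

/-- Let `R` be a domain of characteristic zero, of finite type over `ℤ`, let `F` be a field containing
`R` (the function field of a curve) with an `R`-linear derivation `δ` and `δ x = 1`, let `V` be a vector
space over `F` with a connection `∇`, let `T ∈ R[x]` be nonzero and let `E ⊆ V` be a finitely generated
`R[x, 1/T]`-module which is stable under `∇` and generates `V` over the rational functions of `x`
(`IsModel`; a flat bundle on the part `T ≠ 0` of the curve, spread out over `Spec R`). Let
`α 0, …, α (n - 1)` be elements of `R` with invertible differences, and let `r > 1`.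

First part. Assume that `V` contains the pull-back of an Okubo system `(x - T) Y' = M Y` of rank `r`
(`HasPullback`), where `T` is the diagonal matrix with entries `α (c l)` and `M` is any matrix over `R`.
Let the `μ l` with `c l = j` be the eigenvalues of the diagonal block of `M` of the `l` with `c l = j`, for
all `j`, and let the `ρ l` be the eigenvalues of `M`. Assume that all the `μ l` and `ρ l` are rational with
denominators at least `28 r ^ 3`, and that the system is irreducible over every field which contains `R`
or that the `μ l` and the `ρ l` do not agree modulo `ℤ` up to their order. Then for every common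
denominator `B` of the `μ l` and `ρ l` there are a residue class modulo `B`, prime to `B`, and a nonzero
`g` such that the `p`-curvature of `E` is nonzero at all the closed points of `Spec R[1/g]` whose residue
characteristic is a large prime in this class (`BadModelMod`), and (H) fails.

Second part. Assume that `V` contains the pull-back of the system `d/dx - ∑ j, A j / (x - α j)` of rank
`r`, that this system is irreducible over every field which contains `R` and has rational
exponents `lam j l` (eigenvalues of `A j`) and `phi l` (eigenvalues of `∑ j, A j`). Let `ε x` be rational
numbers with sum zero (for the finite singular points `x = some j` and for infinity, `x = none`), and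
let `D x l` be the numbers `lam j l - ε (some j)` for `x = some j` and `-phi l - ε none` for `x = none`.
Let `x₀` be a singular point such that at most `r` of the `D x l` with `x ≠ x₀` are not integers.

* `MajorAll x₀ D` holds (for every common denominator `q` of the `D x l` and every `u` prime to `q` the
fractional parts of the `-u D x₀ k` strictly majorize those of the `u D x l`, `x ≠ x₀`), or
`BadModelMod` holds for every common denominator `B` of the exponents.

* If `Unbalanced x₀ D` holds, the second alternative holds and (H) fails. `Unbalanced x₀ D` means: less
than `r` of the `D x l` with `x ≠ x₀` are not integers; or some `D x₀ k` is an integer; or the sum of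
`1 - gam (D x l)` over all `x ≠ x₀` and `l` is at most the sum of `1 - gam (D x₀ k)` over all `k` plus
`1 / (14 r ^ 2)`; or all the `D x l` (for all `x` and `l`) which are not integers have denominators at
least `28 r ^ 3`; or some `D x l` with `x ≠ x₀` is not an integer and has a denominator at least as
large as all the `D x₀ k`; or all the `D x l` are in `(1 / N) ℤ` for some prime `N`. -/
theorem result {R : Type u} [CommRing R] [IsDomain R] [CharZero R] [Algebra.FiniteType ℤ R]
    {F : Type v} [Field F] [Algebra R F] (hRF : Function.Injective (algebraMap R F))
    (δ : Derivation R F F) (x : F) (hx : δ x = 1) {V : Type w} [AddCommGroup V] [Module F V]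
    (nabla : V →+ V) (T : R[X]) (hT : T ≠ 0) (E : Submodule (CoordRing x T R) V)
    (hE : IsModel x T nabla E) {n r : ℕ} (hr : 1 < r) (α : Fin n → R)
    (hα : ∀ i j, i ≠ j → IsUnit (α i - α j)) :
    (∀ (c : Fin r → Fin n) (M : Matrix (Fin r) (Fin r) R) (v : Fin r → V),
      HasPullback α (okubo c M) δ x nabla v → ∀ (μ ρ : Fin r → ℚ),
      (∀ j, HasExponents (okubo c M j) (fun l => if c l = j then μ l else 0)) →
      HasExponents M ρ → (∀ l, 28 * r ^ 3 ≤ (μ l).den) → (∀ l, 28 * r ^ 3 ≤ (ρ l).den) →
      (AbsIrreducible α (okubo c M) ∨ ∃ q : ℚ,
        (univ.filter fun l => (μ l - q).den = 1).card ≠
          (univ.filter fun l => (ρ l - q).den = 1).card) →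
      (∀ B : ℕ, 0 < B → (∀ l, ∃ m : ℤ, (B : ℚ) * μ l = m) → (∀ l, ∃ m : ℤ, (B : ℚ) * ρ l = m) →
        BadModelMod nabla E B) ∧ ¬ HypH nabla E) ∧
    (∀ (A : Fin n → Matrix (Fin r) (Fin r) R) (v : Fin r → V), HasPullback α A δ x nabla v →
      ∀ (lam : Fin n → Fin r → ℚ) (phi : Fin r → ℚ),
      (∀ j, HasExponents (A j) (lam j)) → HasExponents (∑ j, A j) phi → AbsIrreducible α A →
      ∀ (x₀ : Option (Fin n)) (ε : Option (Fin n) → ℚ) (D : Option (Fin n) → Fin r → ℚ),
        IsTwist lam phi ε D → nonintAway x₀ D ≤ r →
        ((∀ B, ExpDen lam phi B → BadModelMod nabla E B) ∨ MajorAll x₀ D) ∧
        (Unbalanced x₀ D →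
          (∀ B, ExpDen lam phi B → BadModelMod nabla E B) ∧ ¬ HypH nabla E)) := by
  refine ⟨?_, ?_⟩
  · intro c M v hpb μ ρ hμ hρ hd1 hd2 h
    have h1 := okubo_large hr α hα c M μ ρ hμ hρ hd1 hd2 h
    refine ⟨fun B hB hBμ hBρ => hpb.badModelMod hRF hx hT hE (h1 B hB hBμ hBρ), fun hH => ?_⟩
    obtain ⟨B, hB, hBμ, hBρ⟩ := exists_expDen (fun (_ : Fin 1) l => μ l) ρ
    exact ((h1 B hB (hBμ 0) hBρ).badSome hB).not_condII (hpb.condII hRF hx hT hE hH)
  · intro A v hpb lam phi hlam hphi hirr x₀ ε D hD hfew
    refine ⟨?_, fun h => ?_⟩
    · rcases sys_major_all hr α hα A lam phi hlam hphi hirr x₀ hD hfew with h | h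
      · exact Or.inl fun B hB => hpb.badModelMod hRF hx hT hE (h B hB)
      · exact Or.inr h
    · have h1 := sys_unbalanced hr α hα A lam phi hlam hphi hirr x₀ hD hfew h
      exact ⟨fun B hB => hpb.badModelMod hRF hx hT hE (h1 B hB),
        fun hH => not_condII_of_badMod h1 (hpb.condII hRF hx hT hE hH)⟩

end Pool.Agent.Results.MP_0707f5_ag.PullbackMajorization
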