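import Pool.Agent.R927.PB3
import Pool.Agent.R927.PigeonFinal

set_option autoImplicit false

open Finset Polynomial Pool.Agent.W432.PC Pool.Agent.R927
open Pool.Agent.W77.IM (CoordRing)

/-!
# Flat bundles on curves which contain a pull-back: exponent differences with rough denominators

Let `C` be a curve over a finitely generated field of characteristic zero with a finite map
`x : C → ℙ¹`, and let `(E, ∇)` be a flat bundle on `C` (or on an open part of `C`) whose generic fibre
contains the pull-back of a Fuchsian system `d/dx - ∑ j, A j / (x - α j)` of any rank `r` with `n + 1`
singular points and rational exponents; the system may be reducible, and its accessory parameters are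
arbitrary. Let `D` be a common denominator of the differences of the exponents at the same point, and
assume that all the prime factors of `D` are large (explicitly in terms of `r` and `n`), and that `D` is
not a denominator of the sums of exponents, one for each singular point. (If `x` is ramified to orders
divisible by `D` over all the singular points, the pull-back of the system is, up to a twist by a
connection of rank one, a flat bundle on the proper curve `C`, which may have any large genus.) Then the
`p`-curvatures of `E` are nonzero for all large primes in some residue class, so the hypothesis (H) of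
the isomonodromic form of the `p`-curvature conjecture fails for `(E, ∇)`.

Proof. If the `p`-curvature of `E` vanishes at `𝔪`, that of the system vanishes at `𝔪`, for almost all `𝔪`
(`R927/PB2`). If the `p`-curvature of the system vanishes at a closed point, `p` large, `a p = - 1`
modulo the common denominator `N` of the exponents, then the trivial bundle with the weights `⟨a λ⟩`
satisfies the Weyl inequalities of a semistable parabolic bundle. By Dirichlet's theorem on simultaneous
approximation there is a multiplier `a` prime to `N` such that the multiples by `a` of all the exponent
differences are `r` times rational numbers which are very close to integers; this contradicts the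
inequalities.
-/

namespace Pool.Agent.Results.MP_0707f5_ag.PullbackRoughDenominators

universe u v w

/-- Let `R` be a domain of characteristic zero, of finite type over `ℤ`, let `F` be a field containing
`R` (the function field of a curve) with an `R`-linear derivation `δ` and `δ x = 1`, let `V` be a vector
space over `F` with a connection `∇`, let `T ∈ R[x]` be nonzero and let `E ⊆ V` be a finitely generated
`R[x, 1/T]`-module which is stable under `∇` and generates `V` over the rational functions of `x`
(`IsModel`; a flat bundle on the part `T ≠ 0` of the curve, spread out over `Spec R`). Assume that `V`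
contains the pull-back of the system `d/dx - ∑ j, A j / (x - α j)` of rank `r > 0` (`HasPullback`), where
`α 0, …, α (n - 1)` are elements of `R` with invertible differences, and that this system has rational
exponents `lam j l` (eigenvalues of `A j`) and `phi l` (eigenvalues of `∑ j, A j`). Let `D > 0` be a
common denominator of the differences `lam j l - lam j l'` and `phi l - phi l'`, all of whose prime
factors exceed `(4 r ^ 2 (n + 1)) ^ ((n + 1) (r - 1))`. Assume that `D` times the sum
`∑ j, lam j (κ j) - phi s` is not an integer (for some choice of the indices `κ j` and `s`, or
equivalently for all). Then there are a residue class modulo some `B > 0`, prime to `B`, and a nonzero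
`g` in `R` such that the `p`-curvature of `E` is nonzero at all the closed points of `Spec R[1/g]` whose
residue characteristic is a large prime in that class (`BadModel`). In particular (H) fails. -/
theorem result {R : Type u} [CommRing R] [IsDomain R] [CharZero R] [Algebra.FiniteType ℤ R]
    {F : Type v} [Field F] [Algebra R F] (hRF : Function.Injective (algebraMap R F))
    (δ : Derivation R F F) (x : F) (hx : δ x = 1) {V : Type w} [AddCommGroup V] [Module F V]
    (nabla : V →+ V) (T : R[X]) (hT : T ≠ 0) (E : Submodule (CoordRing x T R) V)
    (hE : IsModel x T nabla E) {n r : ℕ} (hr : 0 < r) (α : Fin n → R)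
    (hα : ∀ i j, i ≠ j → IsUnit (α i - α j)) (A : Fin n → Matrix (Fin r) (Fin r) R)
    (v : Fin r → V) (hpb : HasPullback α A δ x nabla v) (lam : Fin n → Fin r → ℚ)
    (phi : Fin r → ℚ) (hlam : ∀ j, HasExponents (A j) (lam j))
    (hphi : HasExponents (∑ j, A j) phi) (D : ℕ) (hD : 0 < D)
    (hrough : ∀ q : ℕ, q.Prime → q ∣ D → (4 * r ^ 2 * (n + 1)) ^ ((n + 1) * (r - 1)) < q)
    (hDlam : ∀ j l l', ∃ m : ℤ, (D : ℚ) * (lam j l - lam j l') = m)
    (hDphi : ∀ l l', ∃ m : ℤ, (D : ℚ) * (phi l - phi l') = m)
    (κ : Fin n → Fin r) (s : Fin r)
    (hclass : ¬ ∃ m : ℤ, (D : ℚ) * (∑ j, lam j (κ j) - phi s) = m) :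
    BadModel nabla E ∧ ¬ HypH nabla E := by
  obtain ⟨N, a, hN, ha, P₀, hP⟩ := Pool.Agent.R927.rough_final hr α hα A lam phi hlam hphi D hD
    hrough hDlam hDphi κ s hclass
  have h : BadSome α A := ⟨N, a, hN, ha, 1, one_ne_zero, P₀,
    fun p hp hpP hap 𝔪 _ hpm _ => hP p hp hpP hap 𝔪 hpm⟩
  exact ⟨hpb.badModel hRF hx hT hE h, fun hH => h.not_condII (hpb.condII hRF hx hT hE hH)⟩

end Pool.Agent.Results.MP_0707f5_ag.PullbackRoughDenominators
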